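import Mathlib
import Pool.Agent.Helper48_LPY.Stmts
import Pool.Agent.Helper48_LPY.Basic

/-!
# LPY, module NCP: a fingerprint is bad with small probability
-/

set_option autoImplicit false

namespace Pool.Agent.LPY.H41

open Pool.Agent.LAX

/-- Markov's inequality for the exponential moment. -/
lemma markov {Ω : Type} [Fintype Ω] (X : Ω → ℝ) (m t : ℝ)
    (h : ∑ ω, Real.exp (X ω) ≤ Fintype.card Ω * Real.exp m) :
    ({ω | m + t < X ω}.ncard : ℝ) ≤ Real.exp (-t) * Fintype.card Ω := by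
  classical
  have e1 : {ω | m + t < X ω} = ((Finset.univ.filter (fun ω => m + t < X ω) : Finset Ω) : Set Ω) := by
    ext ω; simp
  rw [e1, Set.ncard_coe_finset]
  have h1 : ((Finset.univ.filter (fun ω => m + t < X ω)).card : ℝ) * Real.exp (m + t) ≤
      ∑ ω, Real.exp (X ω) := by
    calc ((Finset.univ.filter (fun ω => m + t < X ω)).card : ℝ) * Real.exp (m + t)
        = ∑ ω ∈ Finset.univ.filter (fun ω => m + t < X ω), Real.exp (m + t) := by
          rw [Finset.sum_const, nsmul_eq_mul]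
      _ ≤ ∑ ω ∈ Finset.univ.filter (fun ω => m + t < X ω), Real.exp (X ω) := by
          apply Finset.sum_le_sum
          intro ω hω
          simp only [Finset.mem_filter, Finset.mem_univ, true_and] at hω
          exact Real.exp_le_exp.2 hω.le
      _ ≤ ∑ ω, Real.exp (X ω) := by
          apply Finset.sum_le_sum_of_subset_of_nonneg (Finset.subset_univ _)
          intro ω _ _
          exact (Real.exp_pos _).le
  have h2 := h1.trans h
  rw [Real.exp_add] at h2
  have hm := Real.exp_pos m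
  have ht := Real.exp_pos t
  rw [Real.exp_neg]
  rw [inv_mul_eq_div, le_div_iff₀ ht]
  have h3 : (((Finset.univ.filter (fun ω => m + t < X ω)).card : ℝ) * Real.exp t) * Real.exp m ≤
      Fintype.card Ω * Real.exp m := by
    calc _ = ((Finset.univ.filter (fun ω => m + t < X ω)).card : ℝ) *
          (Real.exp m * Real.exp t) := by ring
      _ ≤ _ := h2
  exact le_of_mul_le_mul_right h3 hm

lemma sum_ind {α : Type} [Fintype α] (S T : Set α) :
    ∑ p, T.indicator (S.indicator (fun _ => (1 : ℝ))) p = ((T ∩ S).ncard : ℝ) := by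
  classical
  rw [Set.indicator_indicator]
  have e1 : T ∩ S = ((Finset.univ.filter (fun p => p ∈ T ∩ S) : Finset α) : Set α) := by
    ext p; simp
  conv_rhs => rw [e1, Set.ncard_coe_finset]
  rw [← Finset.sum_boole]
  apply Finset.sum_congr rfl
  intro p _
  by_cases hp : p ∈ T ∩ S
  · rw [Set.indicator_of_mem hp, if_pos hp]
  · rw [Set.indicator_of_notMem hp, if_neg hp]

lemma sum_ind' {α : Type} [Fintype α] (S : Set α) :
    ∑ p, S.indicator (fun _ => (1 : ℝ)) p = (S.ncard : ℝ) := by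
  have := sum_ind S Set.univ
  simpa using this

section main

variable {V : Type} [Fintype V] [DecidableEq V] {σ : Equiv.Perm V} {a : ℕ} (B : BS σ (2 ^ a))

/-- lower tail -/
lemma low (hL : ConlStmt) (ha : 20 ≤ a) (hc : Cyc σ (2 ^ a)) (b : V × Lab → ℝ)
    (hb : ∀ p, 0 ≤ b p ∧ b p ≤ 1) (x : ℝ) :
    ({ω | ∑ p, (FL B ω).indicator b p + x < 19 / 20 * rr a * ∑ p, b p}.ncard : ℝ) ≤
      Real.exp (-(th * x)) * Fintype.card (V → Om a) := by
  have h := hL V σ a B b ha hc hb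
  have h2 := markov (fun ω : V → Om a => -(th * ∑ p, (FL B ω).indicator b p))
    (-(th * (19 / 20 * rr a * ∑ p, b p))) (th * x) h
  refine le_trans (Nat.cast_le.2 (Set.ncard_le_ncard ?_ (Set.toFinite _))) h2
  intro ω hω
  have h3 : th * (∑ p, (FL B ω).indicator b p + x) < th * (19 / 20 * rr a * ∑ p, b p) :=
    mul_lt_mul_of_pos_left hω th_pos
  rw [Set.mem_setOf_eq]
  linarith

/-- upper tail -/
lemma upp (hU : ConuStmt) (ha : 20 ≤ a) (hc : Cyc σ (2 ^ a)) (b : V × Lab → ℝ)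
    (hb : ∀ p, 0 ≤ b p ∧ b p ≤ 1) (x : ℝ) :
    ({ω | 6 / 5 * rr a * ∑ p, b p + x < ∑ p, (FL B ω).indicator b p}.ncard : ℝ) ≤
      Real.exp (-(th * x)) * Fintype.card (V → Om a) := by
  have h := hU V σ a B b ha hc hb
  have h2 := markov (fun ω : V → Om a => th * ∑ p, (FL B ω).indicator b p)
    (th * (6 / 5 * rr a * ∑ p, b p)) (th * x) h
  refine le_trans (Nat.cast_le.2 (Set.ncard_le_ncard ?_ (Set.toFinite _))) h2
  intro ω hω
  have h3 : th * (6 / 5 * rr a * ∑ p, b p + x) < th * (∑ p, (FL B ω).indicator b p) :=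
    mul_lt_mul_of_pos_left hω th_pos
  rw [Set.mem_setOf_eq]
  linarith

lemma six (A0 A1 A2 A3 A4 A5 A : Set (V → Om a)) (x : ℝ)
    (h : A ⊆ A0 ∪ A1 ∪ A2 ∪ A3 ∪ A4 ∪ A5) (h0 : (A0.ncard : ℝ) ≤ x) (h1 : (A1.ncard : ℝ) ≤ x)
    (h2 : (A2.ncard : ℝ) ≤ x) (h3 : (A3.ncard : ℝ) ≤ x) (h4 : (A4.ncard : ℝ) ≤ x)
    (h5 : (A5.ncard : ℝ) ≤ x) : (A.ncard : ℝ) ≤ 6 * x := by
  have e := Set.ncard_le_ncard h (Set.toFinite _)
  have e1 := Set.ncard_union_le A0 A1
  have e2 := Set.ncard_union_le (A0 ∪ A1) A2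
  have e3 := Set.ncard_union_le (A0 ∪ A1 ∪ A2) A3
  have e4 := Set.ncard_union_le (A0 ∪ A1 ∪ A2 ∪ A3) A4
  have e5 := Set.ncard_union_le (A0 ∪ A1 ∪ A2 ∪ A3 ∪ A4) A5
  have e6 : A.ncard ≤ A0.ncard + A1.ncard + A2.ncard + A3.ncard + A4.ncard + A5.ncard := by
    omega
  have e7 : (A.ncard : ℝ) ≤ A0.ncard + A1.ncard + A2.ncard + A3.ncard + A4.ncard + A5.ncard := by
    exact_mod_cast e6
  linarith

lemma main (hL : ConlStmt) (hU : ConuStmt) (Q : Set (V × V)) (δ : Lab) (k0 : ℕ) (β : ℝ)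
    (T0 T : Set (V × Lab)) (X Y : (V → Om a) → Set (V × Lab))
    (ha : 20 ≤ a) (hc : Cyc σ (2 ^ a)) (hk : 1 ≤ k0)
    (hE : ∀ S S' : Set (V × Lab),
      ∑ ω : V → Om a, Real.exp (th * ((X ω ∩ S).ncard - (Y ω ∩ S').ncard)) ≤
      Fintype.card (V → Om a) * Real.exp (th * (rr a / 12 * (S \ S').ncard +
      rr a / 100 * (part S + (S' \ S).ncard)))) :
    ({ω | ¬ NC Q δ k0 (rr a) β (FL B ω) (X ω) (Y ω) T0 T}.ncard : ℝ) ≤
    6 * Real.exp (-(th * (β * T.ncard))) * Fintype.card (V → Om a) := by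
  have hr := rr_pos a
  rw [mul_assoc]
  set S0 := SS Q δ T \ SS Q δ T0 with hS0
  set S1 := SS Q δ T \ AA Q δ k0 T with hS1
  set S2 := AA Q δ k0 T \ SS Q δ T with hS2
  set A := AA Q δ k0 T with hA
  have hb1 : ∀ (S : Set (V × Lab)) (p : V × Lab),
      0 ≤ S.indicator (fun _ => (1 : ℝ)) p ∧ S.indicator (fun _ => (1 : ℝ)) p ≤ 1 := by
    intro S p
    by_cases hp : p ∈ S
    · rw [Set.indicator_of_mem hp]; norm_num
    · rw [Set.indicator_of_notMem hp]; norm_num
  have hk0 : (0 : ℝ) < k0 := by exact_mod_cast hk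
  set b : V × Lab → ℝ := A.indicator (fun p => (leak Q δ T p : ℝ) / (2 * k0)) with hb
  have hb2 : ∀ p, 0 ≤ b p ∧ b p ≤ 1 := by
    intro p
    by_cases hp : p ∈ A
    · rw [hb, Set.indicator_of_mem hp]
      refine ⟨by positivity, ?_⟩
      rw [div_le_one (by positivity)]
      have h5 : 5 * leak Q δ T p ≤ k0 := hp
      have h6 : (5 : ℝ) * leak Q δ T p ≤ k0 := by exact_mod_cast h5
      have h7 : (0 : ℝ) ≤ leak Q δ T p := by positivity
      linarith
    · rw [hb, Set.indicator_of_notMem hp]; norm_num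
  have hslk : ∀ L : Set (V × Lab), slk Q δ T (L ∩ A) = 2 * k0 * ∑ p, L.indicator b p := by
    intro L
    rw [hb, Set.indicator_indicator, slk, Finset.mul_sum]
    apply Finset.sum_congr rfl
    intro p _
    by_cases hp : p ∈ L ∩ A
    · rw [Set.indicator_of_mem hp, Set.indicator_of_mem hp]
      field_simp
    · rw [Set.indicator_of_notMem hp, Set.indicator_of_notMem hp, mul_zero]
  have hslk2 : slk Q δ T A = 2 * k0 * ∑ p, b p := by
    have := hslk Set.univ
    simpa using this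
  refine six
    {ω | ∑ p, (FL B ω).indicator (S0.indicator (fun _ => (1 : ℝ))) p + β * T.ncard <
      19 / 20 * rr a * ∑ p, S0.indicator (fun _ => (1 : ℝ)) p}
    {ω | ∑ p, (FL B ω).indicator (S1.indicator (fun _ => (1 : ℝ))) p + β * T.ncard <
      19 / 20 * rr a * ∑ p, S1.indicator (fun _ => (1 : ℝ)) p}
    {ω | 6 / 5 * rr a * ∑ p, S2.indicator (fun _ => (1 : ℝ)) p + β * T.ncard <
      ∑ p, (FL B ω).indicator (S2.indicator (fun _ => (1 : ℝ))) p}
    {ω | ∑ p, (FL B ω).indicator b p + β * T.ncard < 19 / 20 * rr a * ∑ p, b p}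
    {ω | th * (rr a / 12 * (A \ SS Q δ T).ncard +
      rr a / 100 * (part A + (SS Q δ T \ A).ncard)) + th * (β * T.ncard) <
      th * ((X ω ∩ A).ncard - (Y ω ∩ SS Q δ T).ncard)}
    {ω | ∑ p, (FL B ω).indicator (A.indicator (fun _ => (1 : ℝ))) p + β * T.ncard <
      19 / 20 * rr a * ∑ p, A.indicator (fun _ => (1 : ℝ)) p}
    _ _ ?_ (low B hL ha hc _ (hb1 _) _) (low B hL ha hc _ (hb1 _) _) (upp B hU ha hc _ (hb1 _) _)
    (low B hL ha hc _ hb2 _) ?_ (low B hL ha hc _ (hb1 _) _)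
  · intro ω hω
    by_contra hcon
    simp only [Set.mem_union, Set.mem_setOf_eq, not_or, not_lt] at hcon
    obtain ⟨⟨⟨⟨⟨c0, c1⟩, c2⟩, c3⟩, c4⟩, c5⟩ := hcon
    rw [sum_ind, sum_ind'] at c0 c1 c2 c5
    apply hω
    refine ⟨?_, ?_, ?_, ?_, ?_, ?_⟩
    · have : (0 : ℝ) ≤ rr a * S0.ncard := by positivity
      linarith
    · linarith
    · linarith
    · rw [hslk, hslk2]
      have := mul_le_mul_of_nonneg_left c3 (show (0 : ℝ) ≤ 2 * k0 by positivity)
      linarith
    · have h3 : ((X ω ∩ A).ncard - (Y ω ∩ SS Q δ T).ncard : ℝ) ≤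
          rr a / 12 * (A \ SS Q δ T).ncard +
          rr a / 100 * (part A + (SS Q δ T \ A).ncard) + β * T.ncard := by
        rw [← mul_add] at c4
        exact le_of_mul_le_mul_left c4 th_pos
      linarith
    · linarith
  · exact markov (fun ω => th * ((X ω ∩ A).ncard - (Y ω ∩ SS Q δ T).ncard)) _ _ (hE A (SS Q δ T))

end main

theorem ncp (hL : ConlStmt) (hU : ConuStmt) (hE : ConeStmt) : NcpStmt := by
  intro V _ _ σ a B Q δ k0 β T0 T ha hc hk _ _
  exact ⟨main B hL hU Q δ k0 β T0 T (fun ω => ET B ω) (fun ω => EH B ω) ha hc hk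
      (fun S S' => (hE V σ a B S S' ha hc).1),
    main B hL hU Q δ k0 β T0 T (fun ω => EH B ω) (fun ω => ET B ω) ha hc hk
      (fun S S' => (hE V σ a B S S' ha hc).2)⟩

end Pool.Agent.LPY.H41
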