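import Mathlib
import Pool.Agent.Helper48_LPY.Stmts
import Pool.Agent.Helper48_LPY.Basic

/-!
# LPY, module ZST: the eligible set of a block of classes, with counters
-/

set_option autoImplicit false

namespace Pool.Agent.LPY.H41

open Pool.Agent.LAX

lemma ncard_pre {V : Type} (σ : Equiv.Perm V) (R : Set (V × V)) (x : V) :
    {v | (x, σ v) ∈ R}.ncard = (out R x).ncard := by
  have h : σ '' {v | (x, σ v) ∈ R} = out R x := by
    ext y
    simp only [out, Set.mem_image, Set.mem_setOf_eq]
    constructor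
    · rintro ⟨z, hz, rfl⟩
      exact hz
    · intro hy
      exact ⟨σ⁻¹ y, by simpa using hy, by simp⟩
  rw [← h, Set.ncard_image_of_injective _ σ.injective]

lemma count_fam {V : Type} [Fintype V] (E : Set (V × V)) (k q : ℕ) (hE : Reg E k)
    (σ : ℕ → Equiv.Perm V) (z : V) :
    {j : Bool × (Fin q × V) | (j.2.2, σ j.2.1 z) ∈ E}.ncard = 2 * (q * k) := by
  classical
  have e1 : {j : Bool × (Fin q × V) | (j.2.2, σ j.2.1 z) ∈ E} =
      ((Finset.univ.filter (fun j : Bool × (Fin q × V) => (j.2.2, σ j.2.1 z) ∈ E) :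
        Finset (Bool × (Fin q × V))) : Set (Bool × (Fin q × V))) := by
    ext j; simp
  rw [e1, Set.ncard_coe_finset, Finset.card_filter, Fintype.sum_prod_type]
  have e2 : ∀ c : Fin q, (∑ x : V, if (x, σ c z) ∈ E then 1 else 0) = k := by
    intro c
    rw [← Finset.card_filter, ← Set.ncard_coe_finset]
    have := (hE (σ c z)).2
    rw [← this]
    congr 1
    ext x
    simp [inn]
  have e3 : ∀ b : Bool, (∑ y : Fin q × V, if (y.2, σ y.1 z) ∈ E then 1 else 0) = q * k := by
    intro b
    rw [Fintype.sum_prod_type]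
    simp only [e2]
    simp
  simp only [e3 true]
  simp

theorem zst (hZ : ZslStmt) : ZstStmt := by
  intro V _ E R k l h q n σ cp hk1 hk2 hq hE hR hR7 hn hcp
  classical
  set U : Set V := {v | cp v < 2 ^ (l + 60)} with hU
  let N : Bool × (Fin q × V) → Set V := fun j =>
    if j.1 = true then {v | (j.2.2, σ j.2.1 v) ∈ E} else {v | (j.2.2, σ j.2.1 v) ∈ R}
  have hNE : ∀ c x, N (true, (c, x)) = {v | (x, σ c v) ∈ E} := fun c x => if_pos rfl
  have hNR : ∀ c x, N (false, (c, x)) = {v | (x, σ c v) ∈ R} := fun c x => if_neg (by simp)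
  have hNsub : ∀ b c x, N (b, (c, x)) ⊆ {v | (x, σ c v) ∈ E} := by
    intro b c x
    cases b
    · rw [hNR]
      intro v hv
      exact hR hv
    · rw [hNE]
  have hNk : ∀ j, (N j).ncard ≤ k := by
    rintro ⟨b, c, x⟩
    refine (Set.ncard_le_ncard (hNsub b c x) (Set.toFinite _)).trans ?_
    rw [ncard_pre, (hE x).1]
  have hNz : ∀ z, {j | z ∈ N j}.ncard ≤ k ^ 2 := by
    intro z
    have h1 : {j | z ∈ N j} ⊆ {j : Bool × (Fin q × V) | (j.2.2, σ j.2.1 z) ∈ E} := by
      rintro ⟨b, c, x⟩ hj
      exact hNsub b c x hj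
    refine (Set.ncard_le_ncard h1 (Set.toFinite _)).trans ?_
    rw [count_fam E k q hE σ z]
    nlinarith
  obtain ⟨Z, hZU, hZ2⟩ := hZ V (Bool × (Fin q × V)) N U k l h hk1 hk2 hNk hNz
  refine ⟨Z, fun v hv => hZU hv, ?_⟩
  intro c hc x
  have h2h : (0 : ℝ) < 2 ^ h := by positivity
  constructor
  · have h1 := (hZ2 (false, (⟨c, hc⟩, x))).2
    rw [hNR] at h1
    have h2 : k ≤ 2 * ({v | (x, σ c v) ∈ R} ∩ U).ncard := by
      -- few exhausted vertices
      have e1 : ({v | (x, σ c v) ∈ R} \ U).ncard + ({v | (x, σ c v) ∈ R} ∩ U).ncard =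
          {v | (x, σ c v) ∈ R}.ncard := by
        rw [add_comm]
        exact Set.ncard_inter_add_ncard_sdiff_eq_ncard _ _ (Set.toFinite _)
      have e2 := hR7 x
      rw [← ncard_pre (σ c) R x, ← e1] at e2
      have e3 : 8 * ({v | (x, σ c v) ∈ R} \ U).ncard ≤ k := by
        have e4 := hcp c hc x
        have e5 : (2 : ℝ) ^ (l + 60) * ({v | (x, σ c v) ∈ R} \ U).ncard ≤
            ∑ v, {v | (x, σ c v) ∈ E}.indicator (fun v => (cp v : ℝ)) v := by
          have e6 : ({v | (x, σ c v) ∈ R} \ U).ncard =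
              (Finset.univ.filter (fun v => v ∈ {v | (x, σ c v) ∈ R} \ U)).card := by
            rw [← Set.ncard_coe_finset]
            congr 1
            ext v
            simp
          rw [e6]
          calc (2 : ℝ) ^ (l + 60) *
                (Finset.univ.filter (fun v => v ∈ {v | (x, σ c v) ∈ R} \ U)).card
              = ∑ v ∈ Finset.univ.filter (fun v => v ∈ {v | (x, σ c v) ∈ R} \ U),
                  (2 : ℝ) ^ (l + 60) := by
                rw [Finset.sum_const, nsmul_eq_mul, mul_comm]
            _ ≤ ∑ v ∈ Finset.univ.filter (fun v => v ∈ {v | (x, σ c v) ∈ R} \ U),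
                  {v | (x, σ c v) ∈ E}.indicator (fun v => (cp v : ℝ)) v := by
                apply Finset.sum_le_sum
                intro v hv
                simp only [Finset.mem_filter, Finset.mem_univ, true_and] at hv
                rw [Set.indicator_of_mem (show v ∈ {v | (x, σ c v) ∈ E} from hR hv.1)]
                have h7 : ¬ cp v < 2 ^ (l + 60) := hv.2
                have h8 : 2 ^ (l + 60) ≤ cp v := not_lt.1 h7
                exact_mod_cast h8
            _ ≤ _ := by
                apply Finset.sum_le_sum_of_subset_of_nonneg (Finset.subset_univ _)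
                intro v _ _
                apply Set.indicator_nonneg
                intro v _
                positivity
        have e7 : (2 : ℝ) ^ h * ((2 : ℝ) ^ (l + 60) * ({v | (x, σ c v) ∈ R} \ U).ncard) ≤
            n * (2 * k) := (mul_le_mul_of_nonneg_left e5 h2h.le).trans e4
        have e8 : (16 : ℝ) * n ≤ 2 ^ (l + 60) * 2 ^ h := by exact_mod_cast hn
        have e9 : (0 : ℝ) < 2 ^ (l + 60) * 2 ^ h := by positivity
        have e10 : (2 : ℝ) ^ (l + 60) * 2 ^ h * (8 * ({v | (x, σ c v) ∈ R} \ U).ncard) ≤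
            2 ^ (l + 60) * 2 ^ h * k := by
          have e11 : (16 : ℝ) * n * k ≤ 2 ^ (l + 60) * 2 ^ h * k :=
            mul_le_mul_of_nonneg_right e8 (by positivity)
          linarith
        have e12 := le_of_mul_le_mul_left e10 e9
        exact_mod_cast e12
      omega
    have h3 := h1 h2
    have h4 : {v | (x, σ c v) ∈ R ∧ v ∈ Z} = {v | (x, σ c v) ∈ R} ∩ Z := rfl
    rw [h4, div_le_iff₀ (by positivity), mul_comm]
    exact h3
  · have h1 := (hZ2 (true, (⟨c, hc⟩, x))).1
    rw [hNE] at h1
    exact h1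

end Pool.Agent.LPY.H41
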